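import Mathlib
import Pool.Agent.Lerch.CountMain

/-!
The number of odd primes `p ≤ x` whose Lerch quotient is a prime number is
`O(x / (log x) ^ 2)`; in particular it is `o(π(x))`.
-/

namespace Pool.Agent.Results.MP_e19bba_nt.AlmostAllNotPrime

open Pool.Agent.Lerch

theorem result :
    (∃ C : ℝ, 0 < C ∧ ∀ x : ℕ, 2 ≤ x →
      ((lerchPrimeSet x).card : ℝ) ≤ C * x / (Real.log x) ^ 2) ∧
    Filter.Tendsto (fun x : ℕ => ((lerchPrimeSet x).card : ℝ) / (Nat.primeCounting x : ℝ))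
      Filter.atTop (nhds 0) :=
  ⟨card_lerchPrimeSet_bound, tendsto_lerchPrimeSet⟩

end Pool.Agent.Results.MP_e19bba_nt.AlmostAllNotPrime
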