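import Mathlib
import Pool.Agent.Lerch.Knodel

/-!
Prime Lerch quotients: if `L_p` is a prime number, then `p + 1` is squarefree and
`q - 1` divides `p - 1` for every prime `q` dividing `p + 1` (so `p + 1` is a squarefree
2-Knoedel number), and `q` does not divide `⌊p / q⌋ + 1` for any prime `q < p` with
`q - 1` dividing `p - 1`.
-/

namespace Pool.Agent.Results.MP_e19bba_nt.KnodelObstruction

open Pool.Agent.Lerch

theorem result (p : ℕ) (hp : p.Prime) (hp2 : p ≠ 2)
    (hL : ∃ l : ℕ, l.Prime ∧ lerchQ p = (l : ℤ)) :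
    Squarefree (p + 1) ∧
      (∀ q : ℕ, q.Prime → q ∣ p + 1 → (q - 1) ∣ (p - 1)) ∧
      (∀ q : ℕ, q.Prime → q < p → (q - 1) ∣ (p - 1) → ¬ q ∣ p / q + 1) := by
  obtain ⟨l, hl, h⟩ := hL
  exact knodel_of_prime hp hp2 hl h

end Pool.Agent.Results.MP_e19bba_nt.KnodelObstruction
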