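import Mathlib
import Pool.Agent.Lerch.Small

/-!
Exact criterion for a prime `q < p` to divide the Lerch quotient `L_p`.
-/

namespace Pool.Agent.Results.MP_e19bba_nt.SmallPrimeCriterion

open Pool.Agent.Lerch

theorem result (p : ℕ) (hp : p.Prime) (hp2 : p ≠ 2) (q : ℕ) (hq : q.Prime) (hqp : q < p) :
    ((q - 1) ∣ (p - 1) → ((q : ℤ) ∣ lerchQ p ↔ q ∣ p / q + 1)) ∧
    (¬ (q - 1) ∣ (p - 1) →
      ((q : ℤ) ∣ lerchQ p ↔
        (q : ℤ) ∣ ∑ i ∈ Finset.Icc 1 (q - p % q), ((i : ℤ) ^ (p - 1) - 1))) :=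
  ⟨fun h => dvd_lerchQ_iff_of_dvd hp hp2 hq hqp h,
    fun h => dvd_lerchQ_iff_of_not_dvd hp hp2 hq hqp h⟩

end Pool.Agent.Results.MP_e19bba_nt.SmallPrimeCriterion
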